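import Pool.Agent.H61.BRX.Stmts

set_option autoImplicit false

namespace Pool.STN

theorem LWX_thm (hD : DIOStmt) (a b l : ℕ) (hb : 1 ≤ b) (hl : a + b ≤ 2 ^ l) :
    (1 : ℝ) ≤ 2 ^ (108 * l + 1091) *
      |((b : ℝ) - a) * Real.log (4 / 3) + b * Real.log (9 / 8)| := by
  have h0 := hD ((b : ℤ) - a) (b : ℤ) (5 * (l + 10)) (Or.inr (by omega)) (by omega)
  push_cast at h0
  set Λ := |((b : ℝ) - a) * Real.log (4 / 3) + b * Real.log (9 / 8)| with hΛ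
  have hΛ0 : 0 ≤ Λ := abs_nonneg _
  have h1 : (2965950 : ℝ) ^ (5 * (l + 10)) ≤ 2 ^ (108 * (l + 10)) := by
    rw [pow_mul, pow_mul]
    exact pow_le_pow_left₀ (by norm_num) (by norm_num) _
  have h2 : ((343 : ℝ) / 400) ^ (5 * (l + 10)) ≤ (1 / 2) ^ l * (1 / 756) := by
    have e : 5 * (l + 10) = 5 * l + 50 := by ring
    rw [e, pow_add, pow_mul]
    apply mul_le_mul
    · exact pow_le_pow_left₀ (by norm_num) (by norm_num) _
    · norm_num
    · positivity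
    · positivity
  have hr : (a : ℝ) + b ≤ 2 ^ l := by exact_mod_cast hl
  have ha0 : (0 : ℝ) ≤ a := Nat.cast_nonneg a
  have hb0 : (0 : ℝ) ≤ b := Nat.cast_nonneg b
  have h3 : |(b : ℝ) - a| ≤ 2 ^ l := by
    rw [abs_le]; constructor <;> linarith
  have h4 : |(b : ℝ)| ≤ 2 ^ l := by
    rw [abs_of_nonneg hb0]; linarith
  have h5 : 14 * (18 * |(b : ℝ) - a| + 9 * |(b : ℝ)|) ≤ 378 * 2 ^ l := by linarith
  have h6 : 14 * (18 * |(b : ℝ) - a| + 9 * |(b : ℝ)|) * ((343 : ℝ) / 400) ^ (5 * (l + 10)) ≤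
      378 * 2 ^ l * ((1 / 2) ^ l * (1 / 756)) :=
    mul_le_mul h5 h2 (by positivity) (by positivity)
  have h7 : (378 : ℝ) * 2 ^ l * ((1 / 2) ^ l * (1 / 756)) = 1 / 2 := by
    have : (2 : ℝ) ^ l * (1 / 2) ^ l = 1 := by rw [← mul_pow]; norm_num
    calc (378 : ℝ) * 2 ^ l * ((1 / 2) ^ l * (1 / 756)) =
        (378 / 756) * ((2 : ℝ) ^ l * (1 / 2) ^ l) := by ring
      _ = 1 / 2 := by rw [this]; norm_num
  have e2 : (2 : ℝ) ^ (108 * l + 1091) = 2048 * 2 ^ (108 * (l + 10)) := by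
    have e3 : 108 * l + 1091 = 11 + 108 * (l + 10) := by ring
    have e4 : (2 : ℝ) ^ 11 = 2048 := by norm_num
    rw [e3, pow_add, e4]
  rw [e2]
  generalize (2 : ℝ) ^ (108 * (l + 10)) = P at *
  generalize (2965950 : ℝ) ^ (5 * (l + 10)) = Q at *
  rw [h7] at h6
  have hQ : Q * Λ ≤ P * Λ := mul_le_mul_of_nonneg_right h1 hΛ0
  have h8 : 601 * Q * Λ = 601 * (Q * Λ) := by ring
  rw [h8] at h0
  have h9 : 2048 * P * Λ = 2048 * (P * Λ) := by ring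
  rw [h9]
  linarith

end Pool.STN
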