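import Pool.Agent.H36.BRX.NUM
import Pool.Agent.H36.BRX.LWX

set_option autoImplicit false

namespace Pool.STN

/-- the explicit theorem for Collatz's map -/
def EXPLStmt : Prop :=
  ∀ m k : ℕ, 2 ≤ m → 1 ≤ k → F^[k] m = m →
    (∃ j : ℕ, F^[j] m ≤ 2 ^ 1200 * k ^ 109) ∧ k < 2 ^ (lm F m k + 14) ∧
      m < 2 ^ (2 ^ (lm F m k + 12))

theorem exp_per {m k : ℕ} (hp : ∀ i, F^[i + k] m = F^[i] m) (i : ℕ) :
    F^[i % k] m = F^[i] m := by
  have h : Function.Periodic (fun i => F^[i] m) k := hp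
  exact h.map_mod_nat i

theorem exp_min {m k : ℕ} (hk : 1 ≤ k) (hp : ∀ i, F^[i + k] m = F^[i] m) :
    ∃ s : ℕ, s < k ∧ ∀ i, F^[s] m ≤ F^[i] m := by
  obtain ⟨s, hs1, hs2⟩ := Finset.exists_min_image (Finset.range k) (fun i => F^[i] m)
    ⟨0, Finset.mem_range.mpr hk⟩
  refine ⟨s, Finset.mem_range.mp hs1, fun i => ?_⟩
  rw [← exp_per hp i]
  exact hs2 _ (Finset.mem_range.mpr (Nat.mod_lt _ hk))

theorem exp_nd {m s : ℕ} (h2 : ∀ i, 2 ≤ F^[i] m) (hs : ∀ i, F^[s] m ≤ F^[i] m) : ¬ dd m s := by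
  intro hd
  obtain ⟨y, h1, h3⟩ := chn_dd hd
  have := hs (s + 1)
  have := h2 s
  omega

theorem exp_pdd {m k : ℕ} (hp : ∀ i, F^[i + k] m = F^[i] m) : Function.Periodic (dd m) k := by
  intro i
  unfold dd
  rw [hp i]

theorem exp_psw {m k : ℕ} (hp : ∀ i, F^[i + k] m = F^[i] m) : Function.Periodic (sw m) k := by
  intro i
  have h1 : dd m (i + k) = dd m i := exp_pdd hp i
  have h2 : dd m (i + k + 1) = dd m (i + 1) := by
    have e : i + k + 1 = i + 1 + k := by ring
    rw [e]; exact exp_pdd hp (i + 1)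
  unfold sw
  rw [h1, h2]

theorem exp_cnt (p : ℕ → Prop) [DecidablePred p] (k s : ℕ) (hp : Function.Periodic p k) :
    ((Finset.Ico s (s + k)).filter p).card = ((Finset.range k).filter p).card := by
  rw [Nat.filter_Ico_card_eq_of_periodic s k p hp, Nat.count_eq_card_filter_range]

/-- the bound for the least element, the number of descending steps and the first element -/
theorem exp_main (hD : DIOStmt) (hT : TRIStmt) (hG : LGSStmt) (hN : NMLStmt) (m k l : ℕ)
    (hm : 2 ≤ m) (hk : 1 ≤ k) (h : F^[k] m = m) (hl : k ≤ 2 ^ l) :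
    (∃ s : ℕ, (F^[s] m : ℝ) ≤ 2 ^ (108 * l + 1090) * k) ∧
    (((Finset.range k).filter (dd m)).card : ℝ) ≤ cgs (nm m k) * (109 * l + 1093) ∧
    (k : ℝ) ≤ 22 / 5 * ((Finset.range k).filter (dd m)).card ∧
    Real.log m ≤ (109 * l + 1093) * ((8 : ℝ) / 5) ^ (nm m k) * Real.log 2 := by
  obtain ⟨h2, hp, -, -, -, -⟩ := hT m k hm hk h
  obtain ⟨-, hL1, hB1, hA1⟩ := hN m k hm hk h
  obtain ⟨s, hsk, hsm⟩ := exp_min hk hp
  have hnd := exp_nd h2 hsm
  have hAB : ((Finset.range k).filter fun i => dd m i).card +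
      ((Finset.range k).filter fun i => ¬ dd m i).card = k := by
    rw [Finset.card_filter_add_card_filter_not, Finset.card_range]
  have hG1 := hG m k h2 h
  set B := ((Finset.range k).filter fun i => dd m i).card with hB
  set A := ((Finset.range k).filter fun i => ¬ dd m i).card with hA
  have hX2 : (2 : ℝ) ≤ (F^[s] m : ℕ) := by exact_mod_cast h2 s
  have hXpos : (0 : ℝ) < (F^[s] m : ℕ) := by linarith
  -- the sum
  have hsum : ∀ w : ℝ, 0 < w → (∀ i, w ≤ (F^[i] m : ℕ)) →
      ∑ i ∈ Finset.range k, (if dd m i then (0 : ℝ) else 1 / (3 * (F^[i] m : ℝ))) ≤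
        A / (3 * w) := by
    intro w hw hwi
    have h1 : ∀ i ∈ Finset.range k, (if dd m i then (0 : ℝ) else 1 / (3 * (F^[i] m : ℝ))) ≤
        if ¬ dd m i then 1 / (3 * w) else 0 := by
      intro i _
      by_cases hd : dd m i
      · rw [if_pos hd, if_neg (not_not.mpr hd)]
      · rw [if_neg hd, if_pos hd]
        exact one_div_le_one_div_of_le (by positivity) (by linarith [hwi i])
    refine le_trans (Finset.sum_le_sum h1) ?_
    rw [← Finset.sum_filter, Finset.sum_const, nsmul_eq_mul, ← hA]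
    apply le_of_eq; ring
  have hlow := LWX_thm hD A B l hB1 (by omega)
  have hLam := le_trans hG1 (hsum _ hXpos (fun i => by exact_mod_cast hsm i))
  have hLam2 := le_trans hG1 (hsum 2 (by norm_num) (fun i => by exact_mod_cast h2 i))
  have hAk : (A : ℝ) ≤ k := by
    have : A ≤ k := by omega
    exact_mod_cast this
  have hX : ((F^[s] m : ℕ) : ℝ) ≤ 2 ^ (108 * l + 1090) * k := by
    have h1 : (1 : ℝ) ≤ 2 ^ (108 * l + 1091) * (A / (3 * (F^[s] m : ℕ))) :=
      le_trans hlow (mul_le_mul_of_nonneg_left hLam (by positivity))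
    have e : (2 : ℝ) ^ (108 * l + 1091) = 2 * 2 ^ (108 * l + 1090) := by
      rw [show 108 * l + 1091 = (108 * l + 1090) + 1 by ring, pow_succ]; ring
    rw [e] at h1
    generalize (2 : ℝ) ^ (108 * l + 1090) = P at *
    have hP : 0 ≤ P := by
      by_contra hc
      push Not at hc
      have : (A : ℝ) / (3 * (F^[s] m : ℕ)) ≥ 0 := by positivity
      nlinarith
    rw [mul_div_assoc', le_div_iff₀ (by positivity)] at h1
    nlinarith
  have hkl : (k : ℝ) ≤ 2 ^ l := by exact_mod_cast hl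
  have hlog2 : 0 < Real.log 2 := Real.log_pos (by norm_num)
  have hE : Real.log ((F^[s] m : ℕ) : ℝ) ≤ (109 * l + 1093) * Real.log 2 := by
    have h1 : ((F^[s] m : ℕ) : ℝ) ≤ (2 : ℝ) ^ (109 * l + 1090) := by
      refine le_trans hX (le_trans (mul_le_mul_of_nonneg_left hkl (by positivity)) ?_)
      rw [← pow_add]
      apply le_of_eq
      rw [show 108 * l + 1090 + l = 109 * l + 1090 by ring]
    have h3 := Real.log_le_log hXpos h1
    rw [Real.log_pow] at h3
    push_cast at h3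
    nlinarith
  have hpdd := exp_pdd hp
  have hpsw := exp_psw hp
  -- descending steps
  have hc1 := CHN_thm m (s + k) ((109 * l + 1093) * Real.log 2) h2
    (by rw [hpdd s]; exact hnd) (by rw [hp s]; exact hE) s (by omega)
  rw [exp_cnt (dd m) k s hpdd, exp_cnt (sw m) k s hpsw] at hc1
  have hBr : (B : ℝ) ≤ cgs (nm m k) * (109 * l + 1093) := by
    have h1 : (B : ℝ) * Real.log 2 ≤ cgs (nm m k) * ((109 * l + 1093) * Real.log 2) := hc1.2
    have h3 : (B : ℝ) * Real.log 2 ≤ (cgs (nm m k) * (109 * l + 1093)) * Real.log 2 := by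
      linarith
    exact le_of_mul_le_mul_right h3 hlog2
  refine ⟨⟨s, hX⟩, hBr, ?_, ?_⟩
  · have h1 := num_k A B (Nat.cast_nonneg _) (Nat.cast_nonneg _)
      (le_trans hLam2 (by apply le_of_eq; norm_num))
    have h3 : (k : ℝ) = A + B := by
      have : k = A + B := by omega
      exact_mod_cast this
    rw [h3]; exact h1
  · have hc2 := CHN_thm m s ((109 * l + 1093) * Real.log 2) h2 hnd hE 0 (Nat.zero_le _)
    have h1 : Real.log (m : ℝ) ≤ (109 * l + 1093) * Real.log 2 *
        ((8 : ℝ) / 5) ^ ((Finset.Ico 0 s).filter (sw m)).card := hc2.1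
    have h3 : ((Finset.Ico 0 s).filter (sw m)).card ≤ nm m k := by
      unfold nm
      apply Finset.card_le_card
      intro j hj
      rw [Finset.mem_filter, Finset.mem_Ico] at hj
      rw [Finset.mem_filter, Finset.mem_range]
      exact ⟨by omega, hj.2⟩
    have h4 : ((8 : ℝ) / 5) ^ ((Finset.Ico 0 s).filter (sw m)).card ≤ ((8 : ℝ) / 5) ^ (nm m k) :=
      pow_le_pow_right₀ (by norm_num) h3
    have h5 := mul_le_mul_of_nonneg_left h4
      (by positivity : (0 : ℝ) ≤ (109 * l + 1093) * Real.log 2)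
    linarith

theorem EXPL_thm (hD : DIOStmt) (hT : TRIStmt) (hG : LGSStmt) (hN : NMLStmt) : EXPLStmt := by
  intro m k hm hk h
  obtain ⟨hlm, hL1, hB1, hA1⟩ := hN m k hm hk h
  rw [hlm]
  have hAB : ((Finset.range k).filter fun i => dd m i).card +
      ((Finset.range k).filter fun i => ¬ dd m i).card = k := by
    rw [Finset.card_filter_add_card_filter_not, Finset.card_range]
  have hk2 : 1 < k := by omega
  have hcl := Nat.le_pow_clog (by norm_num : 1 < 2) k
  have hcl2 := Nat.pow_pred_clog_lt_self (by norm_num : 1 < 2) hk2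
  set l := Nat.clog 2 k with hl
  have hl1 : 1 ≤ l := by
    rcases Nat.eq_zero_or_pos l with h0 | h0
    · rw [h0, pow_zero] at hcl; omega
    · exact h0
  have hpred : l.pred = l - 1 := rfl
  rw [hpred] at hcl2
  have hcg := cgs_pos (nm m k) hL1
  obtain ⟨⟨s, hs⟩, hB, hkB, -⟩ := exp_main hD hT hG hN m k l hm hk h hcl
  have hlt : k < 2 ^ (nm m k + 14) := by
    by_contra hc
    push Not at hc
    have hkr : (k : ℝ) ≤ 22 / 5 * cgs (nm m k) * (109 * l + 1093) := by linarith
    rcases Nat.lt_or_ge l (nm m k + 15) with hll | hll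
    · have h1 := num_q (nm m k) hL1
      have h3 : (2 : ℝ) ^ (nm m k + 14) ≤ k := by exact_mod_cast hc
      have h4 : (l : ℝ) + 1 ≤ (nm m k : ℝ) + 15 := by exact_mod_cast hll
      nlinarith
    · obtain ⟨d, hd⟩ := Nat.exists_eq_add_of_le hll
      have h1 := num_l (nm m k) d hL1
      rw [← hd] at h1
      have h3 : (2 : ℝ) ^ (nm m k + 14 + d) < k := by
        have e : l - 1 = nm m k + 14 + d := by omega
        rw [e] at hcl2
        exact_mod_cast hcl2
      linarith
  refine ⟨⟨s, ?_⟩, hlt, ?_⟩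
  · have h1 : 2 ^ l ≤ 2 * k := by
      have e : 2 ^ l = 2 * 2 ^ (l - 1) := by
        rw [← pow_succ', Nat.sub_add_cancel hl1]
      omega
    have h3 : ((2 : ℝ) ^ l) ^ 108 ≤ (2 * k) ^ 108 := by
      apply pow_le_pow_left₀ (by positivity)
      exact_mod_cast h1
    have h4 : (F^[s] m : ℝ) ≤ 2 ^ 1198 * k ^ 109 := by
      refine le_trans hs ?_
      have e : (2 : ℝ) ^ (108 * l + 1090) = ((2 : ℝ) ^ l) ^ 108 * 2 ^ 1090 := by
        rw [← pow_mul, ← pow_add, mul_comm l 108]
      rw [e]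
      have h6 : ((2 : ℝ) ^ l) ^ 108 * 2 ^ 1090 * (k : ℝ) ≤
          (2 * (k : ℝ)) ^ 108 * 2 ^ 1090 * (k : ℝ) :=
        mul_le_mul_of_nonneg_right (mul_le_mul_of_nonneg_right h3 (by positivity))
          (Nat.cast_nonneg _)
      refine le_trans h6 (le_of_eq ?_)
      have e1 : (2 : ℝ) ^ 1198 = 2 ^ 108 * 2 ^ 1090 := by rw [← pow_add]
      rw [e1, mul_pow, pow_succ (k : ℝ) 108]
      generalize (2 : ℝ) ^ 1090 = P
      generalize (2 : ℝ) ^ 108 = Q
      ring
    have h5 : F^[s] m ≤ 2 ^ 1198 * k ^ 109 := by exact_mod_cast h4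
    refine le_trans h5 (Nat.mul_le_mul_right _ (Nat.pow_le_pow_right (by norm_num) (by norm_num)))
  · obtain ⟨-, -, -, hm4⟩ := exp_main hD hT hG hN m k (nm m k + 14) hm hk h hlt.le
    have h1 := num_m (nm m k) hL1
    have hlog2 : 0 < Real.log 2 := Real.log_pos (by norm_num)
    have h3 : Real.log (m : ℝ) < 2 ^ (nm m k + 12) * Real.log 2 :=
      lt_of_le_of_lt hm4 (mul_lt_mul_of_pos_right h1 hlog2)
    have h4 : Real.log (m : ℝ) < Real.log ((2 : ℝ) ^ (2 ^ (nm m k + 12))) := by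
      rw [Real.log_pow]; push_cast; exact h3
    have h5 : (m : ℝ) < (2 : ℝ) ^ (2 ^ (nm m k + 12)) :=
      (Real.log_lt_log_iff (by positivity) (by positivity)).mp h4
    exact_mod_cast h5

end Pool.STN
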