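import Pool.Agent.H36.BRX.CHN

set_option autoImplicit false

namespace Pool.STN

theorem num_r (L : ℕ) (hL : 2 ≤ L) :
    22 / 3 * ((8 : ℝ) / 5) ^ L * (109 * L + 2728) ≤ 2 ^ (L + 14) := by
  induction L, hL using Nat.le_induction with
  | base => norm_num
  | succ n hn ih =>
    have h0 : (0 : ℝ) < ((8 : ℝ) / 5) ^ n := by positivity
    have hn' : (2 : ℝ) ≤ n := by exact_mod_cast hn
    have e : (2 : ℝ) ^ (n + 1 + 14) = 2 * 2 ^ (n + 14) := by ring
    rw [e, pow_succ]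
    push_cast
    have h1 : 22 / 3 * (((8 : ℝ) / 5) ^ n * (8 / 5)) * (109 * (n + 1) + 2728) ≤
        2 * (22 / 3 * ((8 : ℝ) / 5) ^ n * (109 * n + 2728)) := by
      have : (8 / 5 : ℝ) * (109 * (n + 1) + 2728) ≤ 2 * (109 * n + 2728) := by linarith
      have := mul_le_mul_of_nonneg_left this (by positivity : (0 : ℝ) ≤ 22 / 3 * ((8 : ℝ) / 5) ^ n)
      linarith
    linarith

theorem num_q (L : ℕ) (hL : 1 ≤ L) :
    22 / 5 * cgs L * (109 * ((L : ℝ) + 15) + 1093) ≤ 2 ^ (L + 14) := by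
  rcases Nat.lt_or_ge L 2 with h | h
  · have : L = 1 := by omega
    subst this
    rw [cgs_eq]
    norm_num
  · have h1 := num_r L h
    rw [cgs_eq]
    have hL' : (2 : ℝ) ≤ L := by exact_mod_cast h
    nlinarith

theorem cgs_nonneg (L : ℕ) : 0 ≤ cgs L := by
  unfold cgs; positivity

theorem cgs_pos (L : ℕ) (hL : 1 ≤ L) : 0 < cgs L := by
  rw [cgs_eq]
  have : (1 : ℝ) < ((8 : ℝ) / 5) ^ L := one_lt_pow₀ (by norm_num) (by omega)
  linarith

theorem num_l (L d : ℕ) (hL : 1 ≤ L) :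
    22 / 5 * cgs L * (109 * (((L + 15 + d : ℕ) : ℝ)) + 1093) ≤ 2 ^ (L + 14 + d) := by
  induction d with
  | zero =>
    have := num_q L hL
    push_cast
    simpa using this
  | succ d ih =>
    have h0 := cgs_nonneg L
    have e : (2 : ℝ) ^ (L + 14 + (d + 1)) = 2 * 2 ^ (L + 14 + d) := by ring
    rw [e]
    push_cast at ih ⊢
    have hL' : (1 : ℝ) ≤ L := by exact_mod_cast hL
    have hd : (0 : ℝ) ≤ d := Nat.cast_nonneg d
    have h1 : (109 * ((L : ℝ) + 15 + (d + 1)) + 1093) ≤ 2 * (109 * ((L : ℝ) + 15 + d) + 1093) := by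
      linarith
    have := mul_le_mul_of_nonneg_left h1 (by positivity : (0 : ℝ) ≤ 22 / 5 * cgs L)
    linarith

theorem num_m (L : ℕ) (hL : 1 ≤ L) :
    (109 * (((L + 14 : ℕ) : ℝ)) + 1093) * ((8 : ℝ) / 5) ^ L < 2 ^ (L + 12) := by
  induction L, hL using Nat.le_induction with
  | base => norm_num
  | succ n hn ih =>
    have h0 : (0 : ℝ) < ((8 : ℝ) / 5) ^ n := by positivity
    have hn' : (1 : ℝ) ≤ n := by exact_mod_cast hn
    have e : (2 : ℝ) ^ (n + 1 + 12) = 2 * 2 ^ (n + 12) := by ring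
    rw [e, pow_succ]
    push_cast at ih ⊢
    have h2 : (109 * ((n : ℝ) + 1 + 14) + 1093) * (8 / 5) ≤ 2 * (109 * ((n : ℝ) + 14) + 1093) := by
      linarith
    have := mul_le_mul_of_nonneg_right h2 h0.le
    linarith

theorem num_log : 12 / 29 * Real.log 2 ≤ Real.log (4 / 3) := by
  have h : Real.log ((2 : ℝ) ^ 12) ≤ Real.log ((4 / 3 : ℝ) ^ 29) :=
    Real.log_le_log (by positivity) (by norm_num)
  rw [Real.log_pow, Real.log_pow] at h
  push_cast at h
  linarith

theorem num_98 : Real.log (9 / 8) = Real.log 2 - 2 * Real.log (4 / 3) := by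
  have h : (9 : ℝ) / 8 = 2 / (4 / 3) ^ 2 := by norm_num
  rw [h, Real.log_div (by norm_num) (by norm_num), Real.log_pow]
  push_cast
  ring

/-- the length is at most `4.4` times the number of descending steps -/
theorem num_k (A B : ℝ) (hA : 0 ≤ A) (hB : 0 ≤ B)
    (h : |(B - A) * Real.log (4 / 3) + B * Real.log (9 / 8)| ≤ A / 6) :
    A + B ≤ 22 / 5 * B := by
  rw [num_98] at h
  have h1 := (abs_le.mp h).1
  have h2 := num_log
  have h3 := Real.log_two_gt_d9
  by_contra hc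
  push Not at hc
  have h4 : (A + B) * Real.log (4 / 3) ≤ B * Real.log 2 + A / 6 := by nlinarith
  have h5 : (A + B) * (12 / 29 * Real.log 2) ≤ (A + B) * Real.log (4 / 3) :=
    mul_le_mul_of_nonneg_left h2 (by linarith)
  nlinarith

end Pool.STN
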